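import Mathlib

set_option autoImplicit false

/-!
Kerdock sets of binary quadratic forms (Kantor's description over a field with `2 ^ n` elements,
`n` odd), and the resulting bent functions.
-/

namespace Pool.Agent.TH220.MUB

open Finset

/-- The sign of an element of `ZMod 2`. -/
noncomputable def sg (x : ZMod 2) : ℝ := if x = 0 then 1 else -1

lemma zcases (x : ZMod 2) : x = 0 ∨ x = 1 := by
  revert x; decide

lemma sg_zero : sg 0 = 1 := by simp [sg]

lemma sg_one : sg 1 = -1 := by
  have h : (1 : ZMod 2) ≠ 0 := by decide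
  simp [sg]

lemma z_add_self (x : ZMod 2) : x + x = 0 := by
  revert x; decide

lemma sg_add (x y : ZMod 2) : sg (x + y) = sg x * sg y := by
  rcases zcases x with rfl | rfl <;> rcases zcases y with rfl | rfl <;>
    simp [sg_zero, sg_one, z_add_self]

lemma sg_mul_self (x : ZMod 2) : sg x * sg x = 1 := by
  rcases zcases x with rfl | rfl <;> simp [sg_zero, sg_one]

/-- Additive maps with a nonzero value have vanishing character sum. -/
lemma sum_lin {V : Type*} [AddCommGroup V] [Fintype V] (L : V → ZMod 2)
    (hL : ∀ u v, L (u + v) = L u + L v) (v₀ : V) (h0 : L v₀ ≠ 0) :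
    ∑ v, sg (L v) = 0 := by
  have h1 : ∑ v, sg (L v) = ∑ v, sg (L (v + v₀)) :=
    (Equiv.sum_comp (Equiv.addRight v₀) (fun v => sg (L v))).symm
  have h2 : L v₀ = 1 := by
    rcases zcases (L v₀) with h | h
    · exact absurd h h0
    · exact h
  have h3 : ∑ v, sg (L (v + v₀)) = - ∑ v, sg (L v) := by
    rw [← Finset.sum_neg_distrib]
    refine Finset.sum_congr rfl fun v _ => ?_
    rw [hL, sg_add, h2, sg_one]; ring
  rw [h3] at h1
  linarith

/-- The square of the character sum of a quadratic function with nondegenerate polar form. -/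
lemma sum_bent {V : Type*} [AddCommGroup V] [Fintype V] [DecidableEq V] (q : V → ZMod 2)
    (B : V → V → ZMod 2) (hq : ∀ u v, q (u + v) = q u + q v + B u v)
    (hB : ∀ u v w, B u (v + w) = B u v + B u w)
    (hnd : ∀ u, u ≠ 0 → ∃ v, B u v ≠ 0) :
    (∑ v, sg (q v)) ^ 2 = (Fintype.card V : ℝ) := by
  have hB0 : ∀ v, B 0 v = 0 := by
    intro v
    have h1 := hq 0 v
    have h2 := hq 0 0
    rw [zero_add] at h1 h2
    have h3 : B 0 0 = 0 := by
      have := hB 0 0 0
      rw [zero_add] at this
      have h4 : B 0 0 + B 0 0 = 0 := z_add_self _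
      rw [← this] at h4; exact h4
    rw [h3, add_zero, z_add_self] at h2
    rw [h2, zero_add] at h1
    have : q v + B 0 v = q v + 0 := by rw [add_zero]; exact h1.symm
    exact add_left_cancel this
  have hq0 : q 0 = 0 := by
    have h2 := hq 0 0
    rw [zero_add, hB0, add_zero, z_add_self] at h2
    exact h2
  have h1 : (∑ v, sg (q v)) ^ 2 = ∑ u, ∑ v, sg (q v) * sg (q (u + v)) := by
    rw [sq, Finset.sum_mul_sum, Finset.sum_comm]
    rw [Finset.sum_comm]
    have : ∀ v, ∑ w, sg (q v) * sg (q w) = ∑ u, sg (q v) * sg (q (u + v)) := fun v =>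
      (Equiv.sum_comp (Equiv.addRight v) (fun w => sg (q v) * sg (q w))).symm
    rw [Finset.sum_congr rfl fun v _ => this v, Finset.sum_comm]
  rw [h1]
  have h2 : ∀ u, ∑ v, sg (q v) * sg (q (u + v)) = if u = 0 then (Fintype.card V : ℝ) else 0 := by
    intro u
    have h3 : ∀ v, sg (q v) * sg (q (u + v)) = sg (q u) * sg (B u v) := by
      intro v
      rw [← sg_add, ← sg_add, hq]
      congr 1
      have := z_add_self (q v)
      calc q v + (q u + q v + B u v) = (q v + q v) + (q u + B u v) := by ring
        _ = q u + B u v := by rw [this, zero_add]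
    rw [Finset.sum_congr rfl fun v _ => h3 v, ← Finset.mul_sum]
    by_cases hu : u = 0
    · subst hu
      simp [hB0, hq0, sg_zero, Finset.card_univ]
    · rw [if_neg hu]
      obtain ⟨v₀, hv₀⟩ := hnd u hu
      rw [sum_lin (B u) (hB u) v₀ hv₀, mul_zero]
  rw [Finset.sum_congr rfl fun u _ => h2 u]
  simp

/-- Every alternating bilinear form over `ZMod 2` is the polar form of a quadratic function. -/
lemma exists_quad {V : Type*} [AddCommGroup V] [Module (ZMod 2) V]
    [FiniteDimensional (ZMod 2) V] (B : V →ₗ[ZMod 2] V →ₗ[ZMod 2] ZMod 2)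
    (hB : ∀ v, B v v = 0) :
    ∃ q : V → ZMod 2, ∀ u v, q (u + v) = q u + q v + B u v := by
  classical
  let b := Module.finBasis (ZMod 2) V
  have hsymm : ∀ u v, B u v = B v u := by
    intro u v
    have h := hB (u + v)
    rw [map_add, map_add, LinearMap.add_apply, LinearMap.add_apply, hB, hB, zero_add, add_zero] at h
    have h2 : B v u + B v u = 0 := z_add_self _
    have : B u v + B v u = B v u + B v u := by rw [h2]; rw [add_comm]; exact h
    exact add_right_cancel this
  refine ⟨fun v => ∑ i, ∑ j, if i < j then B (b i) (b j) * b.repr v i * b.repr v j else 0, ?_⟩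
  intro u v
  have hexp : B u v = ∑ i, ∑ j, B (b i) (b j) * b.repr u i * b.repr v j := by
    conv_lhs => rw [← b.sum_repr u, ← b.sum_repr v]
    simp only [map_sum, LinearMap.sum_apply, map_smul, LinearMap.smul_apply, smul_eq_mul,
      Finset.mul_sum]
    rw [Finset.sum_comm]
    refine Finset.sum_congr rfl fun i _ => Finset.sum_congr rfl fun j _ => ?_
    ring
  have hsplit : B u v = (∑ i, ∑ j, if i < j then B (b i) (b j) * b.repr u i * b.repr v j else 0)
      + ∑ i, ∑ j, if i < j then B (b i) (b j) * b.repr v i * b.repr u j else 0 := by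
    rw [hexp]
    have hsw : (∑ i, ∑ j, if i < j then B (b i) (b j) * b.repr v i * b.repr u j else 0)
        = ∑ i, ∑ j, if j < i then B (b i) (b j) * b.repr u i * b.repr v j else 0 := by
      rw [Finset.sum_comm]
      refine Finset.sum_congr rfl fun i _ => Finset.sum_congr rfl fun j _ => ?_
      by_cases h : j < i
      · rw [if_pos h, if_pos h, hsymm (b j) (b i)]; ring
      · rw [if_neg h, if_neg h]
    rw [hsw, ← Finset.sum_add_distrib]
    refine Finset.sum_congr rfl fun i _ => ?_
    rw [← Finset.sum_add_distrib]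
    refine Finset.sum_congr rfl fun j _ => ?_
    rcases lt_trichotomy i j with h | h | h
    · rw [if_pos h, if_neg (not_lt.2 h.le), add_zero]
    · subst h
      rw [if_neg (lt_irrefl _), add_zero, hB]; simp
    · rw [if_neg (not_lt.2 h.le), if_pos h, zero_add]
  rw [hsplit]
  simp only [map_add, Finsupp.add_apply, ← Finset.sum_add_distrib]
  refine Finset.sum_congr rfl fun i _ => Finset.sum_congr rfl fun j _ => ?_
  by_cases h : i < j
  · simp only [if_pos h]; ring
  · simp [if_neg h]

end Pool.Agent.TH220.MUB
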