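import Mathlib
import Pool.Agent.TH220.MUB.Alg

set_option autoImplicit false

namespace Pool.Agent.TH220.MUB

open Finset

section

variable {F : Type*} [Field F] [Fintype F] [Algebra (ZMod 2) F]

/-- The absolute trace. -/
noncomputable def T (x : F) : ZMod 2 := Algebra.trace (ZMod 2) F x

lemma T_add (x y : F) : T (x + y) = T x + T y := by simp [T]

lemma T_zero : T (0 : F) = 0 := by simp [T]

lemma T_smul (c : ZMod 2) (x : F) : T (algebraMap (ZMod 2) F c * x) = c * T x := by
  unfold T
  rw [← Algebra.smul_def, map_smul, smul_eq_mul]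

lemma T_alg (hn : Odd (Module.finrank (ZMod 2) F)) (c : ZMod 2) :
    T (algebraMap (ZMod 2) F c) = c := by
  unfold T
  rw [Algebra.trace_algebraMap]
  obtain ⟨k, hk⟩ := hn
  rw [hk, add_smul, one_smul, mul_smul, two_smul, z_add_self, zero_add]

lemma T_sq (x : F) : T (x * x) = T x := by
  unfold T
  have h := Algebra.trace_eq_of_algEquiv (FiniteField.frobeniusAlgEquivOfAlgebraic (ZMod 2) F) x
  rw [FiniteField.coe_frobeniusAlgEquivOfAlgebraic] at h
  simp only [ZMod.card] at h
  rw [← sq]
  exact h

lemma char_two : CharP F 2 := charP_of_injective_algebraMap (algebraMap (ZMod 2) F).injective 2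

lemma T_nd (a : F) (ha : a ≠ 0) : ∃ b, T (a * b) ≠ 0 := by
  by_contra hcon
  push Not at hcon
  have h := traceForm_nondegenerate (ZMod 2) F
  have h2 := h.1 a (fun b => by
    rw [Algebra.traceForm_apply]; exact hcon b)
  exact ha h2

lemma f_add_self (x : F) : x + x = 0 := by
  have := char_two (F := F)
  exact CharTwo.add_self_eq_zero x

/-- The alternating form `T z T w + T (z w)`. -/
noncomputable def CF : F →ₗ[ZMod 2] F →ₗ[ZMod 2] ZMod 2 :=
  LinearMap.mk₂ (ZMod 2) (fun z w => T z * T w + T (z * w))
    (fun a b c => by simp only [T_add, add_mul]; ring)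
    (fun c a b => by
      have h1 : T (c • a) = c * T a := by rw [Algebra.smul_def, T_smul]
      have h2 : T ((c • a) * b) = c * T (a * b) := by rw [Algebra.smul_def, mul_assoc, T_smul]
      rw [h1, h2, smul_eq_mul]; ring)
    (fun a b c => by simp only [T_add, mul_add]; ring)
    (fun c a b => by
      have h : a * (c • b) = algebraMap (ZMod 2) F c * (a * b) := by
        rw [Algebra.smul_def]; ring
      rw [h, T_smul, Algebra.smul_def, T_smul, smul_eq_mul]
      ring)

lemma CF_apply (z w : F) : CF z w = T z * T w + T (z * w) := rfl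

lemma exists_c : ∃ c : F → ZMod 2, ∀ z w, c (z + w) = c z + c w + (T z * T w + T (z * w)) := by
  obtain ⟨q, hq⟩ := exists_quad (CF (F := F)) (fun v => by
    rw [CF_apply, T_sq]
    rcases zcases (T v) with h | h <;> rw [h] <;> decide)
  exact ⟨q, fun z w => by rw [hq, CF_apply]⟩

/-- The quadratic part of the Kerdock functions (an arbitrary choice of a function with the
prescribed polar form). -/
noncomputable def cq (z : F) : ZMod 2 := (exists_c (F := F)).choose z

lemma cq_add (z w : F) : cq (z + w) = cq z + cq w + (T z * T w + T (z * w)) :=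
  (exists_c (F := F)).choose_spec z w

/-- The Kerdock functions on `F × ZMod 2`. -/
noncomputable def Q (a : F) (w v : F × ZMod 2) : ZMod 2 :=
  cq (a * v.1) + v.2 * T (a * v.1) + (T (w.1 * v.1) + w.2 * v.2)

/-- The polar form of the Kerdock function with parameter `a`. -/
noncomputable def BQ (a : F) (u v : F × ZMod 2) : ZMod 2 :=
  T (a * u.1) * T (a * v.1) + T ((a * u.1) * (a * v.1)) + u.2 * T (a * v.1) + v.2 * T (a * u.1)

lemma Q_add (a : F) (w u v : F × ZMod 2) : Q a w (u + v) = Q a w u + Q a w v + BQ a u v := by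
  unfold Q BQ
  simp only [Prod.fst_add, Prod.snd_add, mul_add, T_add, cq_add]
  ring

lemma BQ_add (a : F) (u v w : F × ZMod 2) : BQ a u (v + w) = BQ a u v + BQ a u w := by
  unfold BQ
  simp only [Prod.fst_add, Prod.snd_add, mul_add, T_add]
  ring

lemma BQ_nd (hn : Odd (Module.finrank (ZMod 2) F)) (a a' : F) (ha : a ≠ a')
    (u : F × ZMod 2) (hu : ∀ v, BQ a u v + BQ a' u v = 0) : u = 0 := by
  obtain ⟨x, e⟩ := u
  have hs : a + a' ≠ 0 := by
    intro h
    apply ha
    have h2 : a' + a' = 0 := f_add_self a'
    have : a + a' = a' + a' := by rw [h, h2]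
    exact add_right_cancel this
  have h1 := hu (0, 1)
  simp only [BQ, mul_zero, T_zero, zero_add, one_mul] at h1
  -- `T (a x) = T (a' x)`
  have h2 : T (a * x) = T (a' * x) := by
    have h3 : T (a' * x) + T (a' * x) = 0 := z_add_self _
    have : T (a * x) + T (a' * x) = T (a' * x) + T (a' * x) := by rw [h1, h3]
    exact add_right_cancel this
  set t : ZMod 2 := T (a * x) with ht
  have hkey : ∀ y : F, T (((a + a') * (algebraMap (ZMod 2) F (t + e) + (a + a') * x)) * y) = 0 := by
    intro y
    have h3 := hu (y, 0)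
    simp only [BQ, zero_mul, add_zero] at h3
    rw [← h2, ← ht] at h3
    have e1 : ((a + a') * (algebraMap (ZMod 2) F (t + e) + (a + a') * x)) * y
        = algebraMap (ZMod 2) F (t + e) * (a * y) + algebraMap (ZMod 2) F (t + e) * (a' * y)
          + ((a * x) * (a * y) + (a' * x) * (a' * y)) + (a * a' * x * y + a * a' * x * y) := by
      ring
    rw [e1, f_add_self, add_zero, T_add, T_add, T_add, T_smul, T_smul, ← h3]
    ring
  have hzero : (a + a') * (algebraMap (ZMod 2) F (t + e) + (a + a') * x) = 0 := by
    by_contra hne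
    obtain ⟨b, hb⟩ := T_nd _ hne
    exact hb (hkey b)
  have h4 : algebraMap (ZMod 2) F (t + e) + (a + a') * x = 0 := by
    rcases mul_eq_zero.1 hzero with h | h
    · exact absurd h hs
    · exact h
  have h5 : T ((a + a') * x) = 0 := by
    rw [add_mul, T_add, ← h2, ← ht, z_add_self]
  have h6 : t + e = 0 := by
    have h7 : T (algebraMap (ZMod 2) F (t + e) + (a + a') * x) = 0 := by rw [h4, T_zero]
    rw [T_add, T_alg hn, h5, add_zero] at h7
    exact h7
  have h8 : x = 0 := by
    rw [h6, map_zero, zero_add] at h4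
    rcases mul_eq_zero.1 h4 with h | h
    · exact absurd h hs
    · exact h
  have h9 : t = 0 := by rw [ht, h8, mul_zero, T_zero]
  have h10 : e = 0 := by rw [h9, zero_add] at h6; exact h6
  rw [h8, h10]; rfl

/-- Different parameters: the correlation is `± sqrt |V|`. -/
lemma corr_diff [DecidableEq F] (hn : Odd (Module.finrank (ZMod 2) F)) (a a' : F) (ha : a ≠ a')
    (w w' : F × ZMod 2) :
    (∑ v, sg (Q a w v) * sg (Q a' w' v)) ^ 2 = (Fintype.card (F × ZMod 2) : ℝ) := by
  have h := sum_bent (V := F × ZMod 2) (fun v => Q a w v + Q a' w' v)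
    (fun u v => BQ a u v + BQ a' u v)
    (fun u v => by simp only [Q_add]; ring) (fun u v w => by simp only [BQ_add]; ring)
    (fun u hu => by
      by_contra hcon
      push Not at hcon
      exact hu (BQ_nd hn a a' ha u hcon))
  simpa only [sg_add] using h

/-- Same parameter: the correlation vanishes. -/
lemma corr_same (a : F) (w w' : F × ZMod 2) (hw : w ≠ w') :
    ∑ v, sg (Q a w v) * sg (Q a w' v) = 0 := by
  have h1 : ∀ v : F × ZMod 2, sg (Q a w v) * sg (Q a w' v)
      = sg (T ((w.1 + w'.1) * v.1) + (w.2 + w'.2) * v.2) := by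
    intro v
    rw [← sg_add]
    congr 1
    unfold Q
    rw [add_mul, T_add]
    have := z_add_self (cq (a * v.1) + v.2 * T (a * v.1))
    linear_combination this
  rw [Finset.sum_congr rfl fun v _ => h1 v]
  by_cases h2 : w.1 = w'.1
  · have h3 : w.2 ≠ w'.2 := fun h => hw (Prod.ext h2 h)
    refine sum_lin _ (fun u v => ?_) (0, 1) ?_
    · simp only [Prod.fst_add, Prod.snd_add, mul_add, T_add]; ring
    · simp only [mul_zero, T_zero, zero_add, mul_one]
      intro h
      apply h3
      have h4 : w'.2 + w'.2 = 0 := z_add_self _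
      have : w.2 + w'.2 = w'.2 + w'.2 := by rw [h, h4]
      exact add_right_cancel this
  · have h3 : w.1 + w'.1 ≠ 0 := by
      intro h
      apply h2
      have h4 : w'.1 + w'.1 = 0 := f_add_self _
      have : w.1 + w'.1 = w'.1 + w'.1 := by rw [h, h4]
      exact add_right_cancel this
    obtain ⟨b, hb⟩ := T_nd _ h3
    refine sum_lin _ (fun u v => ?_) (b, 0) ?_
    · simp only [Prod.fst_add, Prod.snd_add, mul_add, T_add]; ring
    · simpa using hb

end

end Pool.Agent.TH220.MUB
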