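import Mathlib
import Pool.Agent.TH220.MUB.Kerdock

set_option autoImplicit false

namespace Pool.Agent.TH220.MUB

open Finset

/-- Vectors with the same norm and pairwise clearly negative inner products are few. -/
lemma rankin {E : Type*} [NormedAddCommGroup E] [InnerProductSpace ℝ E] (A : Finset E) (R b : ℝ)
    (hb : 0 < b) (hR0 : 0 ≤ R) (hR : ∀ x ∈ A, inner ℝ x x = R)
    (hA : ∀ x ∈ A, ∀ y ∈ A, x ≠ y → inner ℝ x y ≤ -b) : (A.card : ℝ) ≤ 1 + R / b := by
  classical
  have h1 : 0 ≤ inner ℝ (∑ x ∈ A, x) (∑ x ∈ A, x) := real_inner_self_nonneg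
  rw [sum_inner] at h1
  have h2 : ∀ x ∈ A, inner ℝ x (∑ y ∈ A, y) ≤ R + b - A.card * b := by
    intro x hx
    rw [inner_sum, ← Finset.add_sum_erase A _ hx, hR x hx]
    have h3 : ∑ y ∈ A.erase x, inner ℝ x y ≤ ∑ _y ∈ A.erase x, (-b) := by
      refine Finset.sum_le_sum fun y hy => ?_
      exact hA x hx y (Finset.mem_of_mem_erase hy) (Finset.ne_of_mem_erase hy).symm
    rw [Finset.sum_const, nsmul_eq_mul, Finset.card_erase_of_mem hx] at h3
    have h4 : 1 ≤ A.card := Finset.card_pos.2 ⟨x, hx⟩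
    rw [Nat.cast_sub h4, Nat.cast_one] at h3
    linarith
  have h3 : 0 ≤ (A.card : ℝ) * (R + b - A.card * b) := by
    have := Finset.sum_le_sum h2
    rw [Finset.sum_const, nsmul_eq_mul] at this
    linarith
  rcases A.eq_empty_or_nonempty with hA0 | ⟨x, hx⟩
  · subst hA0
    have : 0 ≤ R / b := div_nonneg hR0 hb.le
    simp only [Finset.card_empty, Nat.cast_zero]
    linarith
  · have h4 : (0 : ℝ) < A.card := by exact_mod_cast Finset.card_pos.2 ⟨x, hx⟩
    have h5 : 0 ≤ R + b - A.card * b := nonneg_of_mul_nonneg_right h3 h4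
    rw [← sub_nonneg]
    have : 1 + R / b - A.card = (R + b - A.card * b) / b := by field_simp; ring
    rw [this]
    exact div_nonneg h5 hb.le

section

variable {F : Type*} [Field F] [Fintype F] [DecidableEq F] [Algebra (ZMod 2) F]

/-- The points: a signed Kerdock vector, with one further coordinate for its basis. -/
noncomputable def pt (α β : ℝ) (p : ZMod 2 × F × (F × ZMod 2)) :
    EuclideanSpace ℝ ((F × ZMod 2) ⊕ F) :=
  WithLp.toLp 2 (Sum.elim (fun v => α * sg (p.1 + Q p.2.1 p.2.2 v))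
    (fun e => if e = p.2.1 then β else 0))

lemma inner_pt (α β : ℝ) (p p' : ZMod 2 × F × (F × ZMod 2)) :
    inner ℝ (pt α β p) (pt α β p') = α ^ 2 * (sg p.1 * sg p'.1) *
      (∑ v, sg (Q p.2.1 p.2.2 v) * sg (Q p'.2.1 p'.2.2 v)) +
      if p.2.1 = p'.2.1 then β ^ 2 else 0 := by
  rw [PiLp.inner_apply, Fintype.sum_sum_type]
  congr 1
  · rw [Finset.mul_sum]
    refine Finset.sum_congr rfl fun v _ => ?_
    simp only [pt, Sum.elim_inl, sg_add, RCLike.inner_apply, conj_trivial]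
    ring
  · have h : ∀ e : F, inner ℝ ((pt α β p).ofLp (Sum.inr e)) ((pt α β p').ofLp (Sum.inr e))
        = if e = p.2.1 then (if p.2.1 = p'.2.1 then β ^ 2 else 0) else 0 := by
      intro e
      simp only [pt, Sum.elim_inr, RCLike.inner_apply, conj_trivial]
      by_cases h1 : e = p.2.1
      · subst h1
        by_cases h2 : p.2.1 = p'.2.1
        · simp only [h2, if_true]; ring
        · simp [h2]
      · simp [h1]
    rw [Finset.sum_congr rfl fun e _ => h e]
    simp

lemma inner_pt_self (r α β : ℝ) (hr : 0 < r) (hr2 : r ^ 2 = (Fintype.card (F × ZMod 2) : ℝ))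
    (hα : α ^ 2 = 1 / (2 * r ^ 2)) (hβ : β ^ 2 = 1 / (2 * r)) (p : ZMod 2 × F × (F × ZMod 2)) :
    inner ℝ (pt α β p) (pt α β p) = 1 / 2 + 1 / (2 * r) := by
  rw [inner_pt, if_pos rfl, hβ, sg_mul_self, mul_one]
  simp only [sg_mul_self, Finset.sum_const, Finset.card_univ, nsmul_eq_mul, mul_one]
  rw [← hr2, hα]
  field_simp

lemma inner_pt_ne (hn : Odd (Module.finrank (ZMod 2) F)) (r α β : ℝ) (hr : 2 ≤ r)
    (hr2 : r ^ 2 = (Fintype.card (F × ZMod 2) : ℝ))
    (hα : α ^ 2 = 1 / (2 * r ^ 2)) (hβ : β ^ 2 = 1 / (2 * r)) (p p' : ZMod 2 × F × (F × ZMod 2))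
    (hp : p ≠ p') :
    inner ℝ (pt α β p) (pt α β p') = 1 / (2 * r) ∨
      inner ℝ (pt α β p) (pt α β p') ≤ -(1 / (2 * r)) := by
  have hr0 : 0 < r := by linarith
  rw [inner_pt]
  by_cases h1 : p.2.1 = p'.2.1
  · rw [if_pos h1, hβ]
    by_cases h2 : p.2.2 = p'.2.2
    · -- opposite signs
      right
      have h3 : p.1 ≠ p'.1 := fun h => hp (Prod.ext h (Prod.ext h1 h2))
      have h4 : sg p.1 * sg p'.1 = -1 := by
        rcases zcases p.1 with h | h <;> rcases zcases p'.1 with h' | h' <;>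
          rw [h, h'] at h3 ⊢ <;> simp [sg_zero, sg_one] at h3 ⊢
      rw [h4, h1, h2]
      simp only [sg_mul_self, Finset.sum_const, Finset.card_univ, nsmul_eq_mul, mul_one]
      rw [← hr2, hα]
      have h5 : 1 / (2 * r ^ 2) * -1 * r ^ 2 = -(1 / 2) := by field_simp
      rw [h5]
      have h6 : 1 / (2 * r) ≤ 1 / 4 := by
        apply one_div_le_one_div_of_le <;> linarith
      linarith
    · left
      rw [h1, corr_same _ _ _ h2, mul_zero, zero_add]
  · rw [if_neg h1, add_zero, hα]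
    have h2 := corr_diff hn p.2.1 p'.2.1 h1 p.2.2 p'.2.2
    rw [← hr2] at h2
    have h3 := sq_eq_sq_iff_eq_or_eq_neg.1 h2
    have hs : sg p.1 * sg p'.1 = 1 ∨ sg p.1 * sg p'.1 = -1 := by
      rcases zcases p.1 with h | h <;> rcases zcases p'.1 with h' | h' <;>
          rw [h, h'] <;> simp [sg_zero, sg_one]
    have e1 : 1 / (2 * r ^ 2) * r = 1 / (2 * r) := by field_simp
    rcases hs with hs | hs <;> rcases h3 with h3 | h3 <;> rw [hs, h3]
    · left; rw [mul_one, e1]
    · right; rw [mul_one, mul_neg, e1]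
    · right; rw [mul_neg_one, neg_mul, e1]
    · left; rw [mul_neg_one, neg_mul_neg, e1]

end

/-- The configuration: `2 ^ (4 k + 4)` points in dimension `3 * 2 ^ (2 k + 1)`, pairwise at
distance at least `1`, such that every subset with pairwise distances greater than `1` has at most
`2 ^ (k + 1) + 2` points. -/
theorem config (k : ℕ) : ∃ S : Finset (EuclideanSpace ℝ (Fin (3 * 2 ^ (2 * k + 1)))),
    S.card = 2 ^ (4 * k + 4) ∧ (∀ x ∈ S, ∀ y ∈ S, x ≠ y → 1 ≤ dist x y) ∧
    ∀ A ⊆ S, (∀ x ∈ A, ∀ y ∈ A, x ≠ y → 1 < dist x y) → A.card ≤ 2 ^ (k + 1) + 2 := by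
  classical
  let F := GaloisField 2 (2 * k + 1)
  have : Fintype F := Fintype.ofFinite F
  have hcF : Fintype.card F = 2 ^ (2 * k + 1) := by
    rw [← Nat.card_eq_fintype_card]
    exact GaloisField.card 2 (2 * k + 1) (by omega)
  have hfr : Module.finrank (ZMod 2) F = 2 * k + 1 := GaloisField.finrank 2 (by omega)
  have hn : Odd (Module.finrank (ZMod 2) F) := ⟨k, hfr⟩
  have hcV : Fintype.card (F × ZMod 2) = 2 ^ (2 * k + 2) := by
    rw [Fintype.card_prod, hcF, ZMod.card]; ring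
  have hcι : Fintype.card ((F × ZMod 2) ⊕ F) = 3 * 2 ^ (2 * k + 1) := by
    rw [Fintype.card_sum, hcV, hcF]; ring
  set r : ℝ := 2 ^ (k + 1) with hr
  have hr2' : (2 : ℝ) ≤ r := by
    rw [hr]
    calc (2 : ℝ) = 2 ^ 1 := by norm_num
      _ ≤ 2 ^ (k + 1) := pow_le_pow_right₀ (by norm_num) (by omega)
  have hr0 : 0 < r := by linarith
  have hr2 : r ^ 2 = (Fintype.card (F × ZMod 2) : ℝ) := by
    rw [hcV, hr]; push_cast; ring
  obtain ⟨α, hα⟩ : ∃ α : ℝ, α ^ 2 = 1 / (2 * r ^ 2) :=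
    ⟨Real.sqrt (1 / (2 * r ^ 2)), Real.sq_sqrt (by positivity)⟩
  obtain ⟨β, hβ⟩ : ∃ β : ℝ, β ^ 2 = 1 / (2 * r) :=
    ⟨Real.sqrt (1 / (2 * r)), Real.sq_sqrt (by positivity)⟩
  have hpos : 0 < 1 / (2 * r) := by positivity
  have hself := inner_pt_self (F := F) r α β hr0 hr2 hα hβ
  have hne := inner_pt_ne (F := F) hn r α β hr2' hr2 hα hβ
  let e := LinearIsometryEquiv.piLpCongrLeft 2 ℝ ℝ (Fintype.equivFinOfCardEq hcι)
  let g : ZMod 2 × F × (F × ZMod 2) → EuclideanSpace ℝ (Fin (3 * 2 ^ (2 * k + 1))) :=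
    fun p => e (pt α β p)
  have hg : ∀ p p', inner ℝ (g p) (g p') = inner ℝ (pt α β p) (pt α β p') := fun p p' =>
    e.inner_map_map _ _
  have hgself : ∀ p, inner ℝ (g p) (g p) = 1 / 2 + 1 / (2 * r) := fun p => by
    rw [hg, hself]
  have hgne : ∀ p p', p ≠ p' → inner ℝ (g p) (g p') = 1 / (2 * r) ∨
      inner ℝ (g p) (g p') ≤ -(1 / (2 * r)) := fun p p' hp => by
    rw [hg]; exact hne p p' hp
  have hinj : Function.Injective g := by
    intro p p' h
    by_contra hcon
    have h1 := hgne p p' hcon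
    rw [← h, hgself] at h1
    rcases h1 with h1 | h1 <;> linarith
  have hdist : ∀ p p', dist (g p) (g p') ^ 2 = 1 + 1 / r - 2 * inner ℝ (g p) (g p') := by
    intro p p'
    rw [dist_eq_norm, norm_sub_sq_real, ← real_inner_self_eq_norm_sq, ← real_inner_self_eq_norm_sq,
      hgself, hgself]
    field_simp
    ring
  have e2 : 2 * (1 / (2 * r)) = 1 / r := by field_simp
  refine ⟨Finset.univ.image g, ?_, ?_, ?_⟩
  · rw [Finset.card_image_of_injective _ hinj, Finset.card_univ, Fintype.card_prod,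
      Fintype.card_prod, hcV, hcF, ZMod.card]
    ring
  · intro x hx y hy hxy
    obtain ⟨p, -, rfl⟩ := Finset.mem_image.1 hx
    obtain ⟨p', -, rfl⟩ := Finset.mem_image.1 hy
    have hpp : p ≠ p' := fun h => hxy (by rw [h])
    have h1 : (1 : ℝ) ^ 2 ≤ dist (g p) (g p') ^ 2 := by
      rw [hdist]
      rcases hgne p p' hpp with h | h <;> linarith
    exact le_of_sq_le_sq h1 dist_nonneg
  · intro A hA hd
    have h1 : (A.card : ℝ) ≤ 1 + (1 / 2 + 1 / (2 * r)) / (1 / (2 * r)) := by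
      refine rankin A _ _ hpos (by positivity) ?_ ?_
      · intro x hx
        obtain ⟨p, -, rfl⟩ := Finset.mem_image.1 (hA hx)
        exact hgself p
      · intro x hx y hy hxy
        have hlt := hd x hx y hy hxy
        obtain ⟨p, -, rfl⟩ := Finset.mem_image.1 (hA hx)
        obtain ⟨p', -, rfl⟩ := Finset.mem_image.1 (hA hy)
        have hpp : p ≠ p' := fun h => hxy (by rw [h])
        rcases hgne p p' hpp with h | h
        · exfalso
          have h2 := hdist p p'
          rw [h, e2] at h2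
          have h3 : (1 : ℝ) < dist (g p) (g p') ^ 2 := by nlinarith
          linarith
        · exact h
    have h2 : 1 + (1 / 2 + 1 / (2 * r)) / (1 / (2 * r)) = r + 2 := by
      field_simp
      ring
    rw [h2, hr] at h1
    exact_mod_cast h1

end Pool.Agent.TH220.MUB
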