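import Mathlib
import Pool.Agent.TH220.MUB.Config

set_option autoImplicit false

namespace Pool.Agent.TH220.MUB

open Finset

/-- Euclidean spaces embed isometrically into Euclidean spaces of larger dimension. -/
lemma exists_isometry {a b : ℕ} (h : a ≤ b) :
    ∃ f : EuclideanSpace ℝ (Fin a) → EuclideanSpace ℝ (Fin b), Isometry f := by
  let v := EuclideanSpace.basisFun (Fin a) ℝ
  let w := EuclideanSpace.basisFun (Fin b) ℝ
  let L : EuclideanSpace ℝ (Fin a) →ₗ[ℝ] EuclideanSpace ℝ (Fin b) :=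
    v.toBasis.constr ℝ (fun i => w (Fin.castLE h i))
  have hL : L ∘ v.toBasis = fun i => w (Fin.castLE h i) := by
    funext i
    simp only [Function.comp_apply, L, Module.Basis.constr_basis]
  have hf : Orthonormal ℝ (L ∘ v.toBasis) := by
    rw [hL]
    exact w.orthonormal.comp _ (Fin.castLE_injective h)
  have hv : Orthonormal ℝ v.toBasis := by
    rw [OrthonormalBasis.coe_toBasis]; exact v.orthonormal
  exact ⟨L.isometryOfOrthonormal hv hf, (L.isometryOfOrthonormal hv hf).isometry⟩

/-- The configuration in every dimension `n ≥ 3 * 2 ^ (2 k + 1)`, scaled by `2`: the centres of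
nonoverlapping unit balls. -/
theorem config2 (k n : ℕ) (hn : 3 * 2 ^ (2 * k + 1) ≤ n) :
    ∃ S : Finset (EuclideanSpace ℝ (Fin n)),
    S.card = 2 ^ (4 * k + 4) ∧ (∀ x ∈ S, ∀ y ∈ S, x ≠ y → 2 ≤ dist x y) ∧
    ∀ A ⊆ S, (∀ x ∈ A, ∀ y ∈ A, x ≠ y → 2 < dist x y) → A.card ≤ 2 ^ (k + 1) + 2 := by
  classical
  obtain ⟨S, hS, hsep, hind⟩ := config k
  obtain ⟨f, hf⟩ := exists_isometry hn
  let g : EuclideanSpace ℝ (Fin (3 * 2 ^ (2 * k + 1))) → EuclideanSpace ℝ (Fin n) :=
    fun x => (2 : ℝ) • f x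
  have hg : ∀ x y, dist (g x) (g y) = 2 * dist x y := by
    intro x y
    change dist ((2 : ℝ) • f x) ((2 : ℝ) • f y) = _
    rw [dist_smul₀, hf.dist_eq]
    norm_num
  have hinj : Function.Injective g := by
    intro x y h
    have h1 : dist (g x) (g y) = 0 := by rw [h]; exact dist_self _
    rw [hg] at h1
    exact dist_eq_zero.1 (by linarith)
  refine ⟨S.image g, ?_, ?_, ?_⟩
  · rw [Finset.card_image_of_injective _ hinj, hS]
  · intro x hx y hy hxy
    obtain ⟨p, hp, rfl⟩ := Finset.mem_image.1 hx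
    obtain ⟨q, hq, rfl⟩ := Finset.mem_image.1 hy
    have := hsep p hp q hq (fun h => hxy (by rw [h]))
    rw [hg]; linarith
  · intro A hA hd
    have h1 : (A.preimage g hinj.injOn).image g = A := by
      rw [Finset.image_preimage]
      refine Finset.filter_true_of_mem fun x hx => ?_
      obtain ⟨p, -, rfl⟩ := Finset.mem_image.1 (hA hx)
      exact ⟨p, rfl⟩
    rw [← h1, Finset.card_image_of_injective _ hinj]
    refine hind _ ?_ ?_
    · intro x hx
      rw [Finset.mem_preimage] at hx
      obtain ⟨p, hp, hpx⟩ := Finset.mem_image.1 (hA hx)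
      rwa [← hinj hpx]
    · intro x hx y hy hxy
      rw [Finset.mem_preimage] at hx hy
      have := hd _ hx _ hy (fun h => hxy (hinj h))
      rw [hg] at this
      linarith

end Pool.Agent.TH220.MUB
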